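import Mathlib
import Pool.Agent.Helper65.MinimalCompletion

open Topology Filter Set
open scoped Pointwise

namespace Pool.Agent.Results.MP_47408d_gt.SolvableConvergentSequence

/-- **Answer to Q1 and Q2 (positive).** Every infinite solvable Hausdorff topological group `G` which
is minimal (no Hausdorff group topology on `G` is strictly coarser; in Mathlib's order `t < t'` means
that `t'` is strictly coarser than `t`) and precompact (for every neighbourhood `U` of `1` there is a
finite `F` with `F U = G`) contains a nontrivial convergent sequence. -/
theorem result (G : Type*) [Group G] [t : TopologicalSpace G] [IsTopologicalGroup G] [T2Space G]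
    [Infinite G] [Group.IsSolvable G]
    (hmin : ∀ t' : TopologicalSpace G, @IsTopologicalGroup G t' _ → @T2Space G t' → ¬ t < t')
    (hpre : ∀ U ∈ 𝓝 (1 : G), ∃ F : Set G, F.Finite ∧ F * U = univ) :
    ∃ (x : ℕ → G) (a : G), Function.Injective x ∧ Tendsto x atTop (𝓝 a) :=
  Pool.Agent.Helper65.MinimalCompletion.exists_sequence G hmin hpre

end Pool.Agent.Results.MP_47408d_gt.SolvableConvergentSequence
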